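import Pool.Agent.H83.CF.Hard

/-!
# MP_226eb6_nt: Q1 implies that n^2 + 1, n^2 + 2 and n^2 - 2 are prime infinitely often

The definitions (complete quotients `cq`, digits `pq`, period length `T`, counting function `W`) are
in `Pool.Agent.H83.CF.Base`.

Proof. `T p = 1, 2, 4` forces `p = n^2 + 1`, `p = n^2 + 2`, `p = n^2 - 2`. If a class `W_t` were finite
then, the counts being integers, all classes of the same parity would have at most `k` elements. The
period length is odd for `p` congruent to `1` and even for `p` congruent to `3` modulo `4`, and `T p` is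
at most the number of the pairs `(P, Q)` with `0 < P < √p`, `0 < Q < 2 √p` and `Q ∣ p - P^2`, which is
`O(X^(3/4))` on average over the integers below `X`. So there would be only `O(X^(7/8))` primes below `X`
in the residue class, against the divergence of the sum of `log p / p` over it.
-/

set_option autoImplicit false

open Filter Topology

namespace Pool.Agent.Results.MP_226eb6_nt.ImpliesLandau

open Pool.Agent.H83.CF

/-- If all limits in Q1 exist and equal `1`, then every period length occurs for infinitely many primes,
and `n^2 + 1`, `n^2 + 2` and `n^2 - 2` are prime infinitely often. -/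
theorem result (h : ∀ i : ℕ, 1 ≤ i →
    Tendsto (fun N : ℕ => (W (2 * i + 2) N : ℝ) / (W (2 * i) N : ℝ)) atTop (𝓝 1) ∧
    Tendsto (fun N : ℕ => (W (2 * i + 1) N : ℝ) / (W (2 * i - 1) N : ℝ)) atTop (𝓝 1)) :
    (∀ i, 1 ≤ i → {p : ℕ | p.Prime ∧ T p = i}.Infinite) ∧
    {n : ℕ | (n ^ 2 + 1).Prime}.Infinite ∧ {n : ℕ | (n ^ 2 + 2).Prime}.Infinite ∧
    {n : ℕ | (n ^ 2 - 2).Prime}.Infinite :=
  main h

end Pool.Agent.Results.MP_226eb6_nt.ImpliesLandau
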